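import Pool.Agent.W751.CV.Stm

set_option autoImplicit false

open Polynomial Filter Topology MeasureTheory

namespace Pool.Agent.W293.CV

open Pool.Agent.W751.CD Pool.Agent.W751.CV

/-- the product without one factor -/
noncomputable def q {N : ℕ} (z : Fin N → ℂ) (i : Fin N) : ℂ[X] :=
  ∏ j ∈ Finset.univ.erase i, (X - C (z j))

theorem deriv_coeff {N : ℕ} (z : Fin N → ℂ) (s : Finset (Fin N)) : ∀ k : ℕ,
    HasFDerivAt (𝕜 := ℂ) (fun y : Fin N → ℂ => (∏ i ∈ s, (X - C (y i))).coeff k)
      (-∑ i ∈ s, (∏ j ∈ s.erase i, (X - C (z j))).coeff k •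
        (ContinuousLinearMap.proj i : (Fin N → ℂ) →L[ℂ] ℂ)) z := by
  classical
  induction s using Finset.induction_on with
  | empty =>
    intro k
    simp only [Finset.prod_empty, Finset.sum_empty, neg_zero]
    exact hasFDerivAt_const _ _
  | insert a s ha ih =>
    intro k
    have hc : ∀ (y : Fin N → ℂ) (k : ℕ), (∏ i ∈ insert a s, (X - C (y i))).coeff k =
        (X * ∏ i ∈ s, (X - C (y i))).coeff k - y a * (∏ i ∈ s, (X - C (y i))).coeff k := by
      intro y k
      rw [Finset.prod_insert ha, sub_mul, coeff_sub, coeff_C_mul]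
    have hX : HasFDerivAt (𝕜 := ℂ) (fun y : Fin N → ℂ => (X * ∏ i ∈ s, (X - C (y i))).coeff k)
        (-∑ i ∈ s, (X * ∏ j ∈ s.erase i, (X - C (z j))).coeff k •
          (ContinuousLinearMap.proj i : (Fin N → ℂ) →L[ℂ] ℂ)) z := by
      cases k with
      | zero =>
        have h0 : HasFDerivAt (𝕜 := ℂ) (fun _ : Fin N → ℂ => (0 : ℂ))
          (0 : (Fin N → ℂ) →L[ℂ] ℂ) z := hasFDerivAt_const _ _
        have e0 : (fun y : Fin N → ℂ => (X * ∏ i ∈ s, (X - C (y i))).coeff 0) =
            fun _ => 0 := by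
          funext y
          exact coeff_X_mul_zero _
        rw [e0]
        refine h0.congr_fderiv ?_
        ext v
        simp
      | succ k =>
        simp only [coeff_X_mul]
        exact ih k
    have ha' : HasFDerivAt (𝕜 := ℂ) (fun y : Fin N → ℂ => y a)
        (ContinuousLinearMap.proj a : (Fin N → ℂ) →L[ℂ] ℂ) z := hasFDerivAt_apply a z
    have h := hX.sub (ha'.mul (ih k))
    have e : (fun y : Fin N → ℂ => (∏ i ∈ insert a s, (X - C (y i))).coeff k) =
        fun y => (X * ∏ i ∈ s, (X - C (y i))).coeff k -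
          y a * (∏ i ∈ s, (X - C (y i))).coeff k := by
      funext y
      exact hc y k
    rw [e]
    refine h.congr_fderiv ?_
    rw [Finset.sum_insert ha, Finset.erase_insert ha]
    have e2 : ∑ i ∈ s, (∏ j ∈ (insert a s).erase i, (X - C (z j))).coeff k •
        (ContinuousLinearMap.proj i : (Fin N → ℂ) →L[ℂ] ℂ) =
        ∑ i ∈ s, (X * ∏ j ∈ s.erase i, (X - C (z j))).coeff k •
          (ContinuousLinearMap.proj i : (Fin N → ℂ) →L[ℂ] ℂ) -
        z a • ∑ i ∈ s, (∏ j ∈ s.erase i, (X - C (z j))).coeff k •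
          (ContinuousLinearMap.proj i : (Fin N → ℂ) →L[ℂ] ℂ) := by
      rw [Finset.smul_sum, ← Finset.sum_sub_distrib]
      refine Finset.sum_congr rfl fun i hi => ?_
      have hia : a ≠ i := fun h => ha (h ▸ hi)
      have hne : a ∉ s.erase i := fun h => ha (Finset.mem_of_mem_erase h)
      rw [Finset.erase_insert_of_ne hia, Finset.prod_insert hne, sub_mul, coeff_sub,
        coeff_C_mul]
      ext v
      simp
      ring
    rw [e2]
    ext v
    simp
    ring

theorem hasFDeriv_Phi {N : ℕ} (z : Fin N → ℂ) :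
    HasFDerivAt (𝕜 := ℂ) (Phi : (Fin N → ℂ) → (Fin N → ℂ))
      (LinearMap.toContinuousLinearMap
        (Matrix.toLin' (Matrix.of fun k i : Fin N => -(q z i).coeff k))) z := by
  rw [hasFDerivAt_pi']
  intro k
  have h := deriv_coeff z Finset.univ k
  refine h.congr_fderiv ?_
  ext v
  simp [q, Matrix.mulVec, dotProduct]

theorem natDegree_q {N : ℕ} (z : Fin N → ℂ) (i : Fin N) : (q z i).natDegree < N := by
  unfold q
  rw [natDegree_prod_of_monic _ _ (fun j _ => monic_X_sub_C _)]
  simp only [natDegree_X_sub_C, Finset.sum_const, smul_eq_mul, mul_one,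
    Finset.card_erase_of_mem (Finset.mem_univ i), Finset.card_univ, Fintype.card_fin]
  have := i.pos
  omega

theorem vand_mul {N : ℕ} (z : Fin N → ℂ) :
    Matrix.vandermonde z * (Matrix.of fun k i : Fin N => -(q z i).coeff k) =
      Matrix.diagonal fun i => -∏ j ∈ Finset.univ.erase i, (z i - z j) := by
  ext i l
  rw [Matrix.mul_apply]
  have h1 : ∑ k : Fin N, Matrix.vandermonde z i k *
      (Matrix.of fun k i : Fin N => -(q z i).coeff k) k l = -(q z l).eval (z i) := by
    rw [eval_eq_sum_range' (natDegree_q z l), ← Finset.sum_neg_distrib,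
      ← Fin.sum_univ_eq_sum_range (fun k => -((q z l).coeff k * z i ^ k))]
    refine Finset.sum_congr rfl fun k _ => ?_
    simp [Matrix.vandermonde_apply]
    ring
  rw [h1]
  by_cases hil : i = l
  · subst hil
    rw [Matrix.diagonal_apply_eq]
    unfold q
    rw [eval_prod]
    simp
  · rw [Matrix.diagonal_apply_ne _ hil]
    unfold q
    rw [eval_prod, Finset.prod_eq_zero (Finset.mem_erase.2 ⟨hil, Finset.mem_univ i⟩)]
    · simp
    · simp

theorem norm_prod_erase {N : ℕ} (z : Fin N → ℂ) :
    ∏ i, ∏ j ∈ Finset.univ.erase i, ‖z i - z j‖ = ‖(Matrix.vandermonde z).det‖ ^ 2 := by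
  rw [Matrix.det_vandermonde, norm_prod, sq]
  simp only [norm_prod]
  have h1 : ∏ i : Fin N, ∏ j ∈ Finset.Ioi i, ‖z j - z i‖ =
      ∏ i : Fin N, ∏ j ∈ Finset.Iio i, ‖z i - z j‖ := by
    refine Finset.prod_comm' ?_
    intro x y
    simp
  nth_rewrite 2 [h1]
  rw [← Finset.prod_mul_distrib]
  refine Finset.prod_congr rfl fun i _ => ?_
  have h2 : Finset.univ.erase i = Finset.Ioi i ∪ Finset.Iio i := by
    ext j
    simp [lt_or_lt_iff_ne, eq_comm]
  rw [h2, Finset.prod_union]
  · congr 1
    refine Finset.prod_congr rfl fun j _ => norm_sub_rev _ _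
  · rw [Finset.disjoint_left]
    intro j hj hj2
    rw [Finset.mem_Ioi] at hj
    rw [Finset.mem_Iio] at hj2
    exact lt_asymm hj hj2

theorem norm_det {N : ℕ} (z : Fin N → ℂ) :
    ‖(Matrix.of fun k i : Fin N => -(q z i).coeff k).det‖ = ‖(Matrix.vandermonde z).det‖ := by
  by_cases h : (Matrix.vandermonde z).det = 0
  · rw [h, norm_zero, norm_eq_zero]
    rw [Matrix.det_vandermonde_eq_zero_iff] at h
    obtain ⟨i, j, hij, hne⟩ := h
    refine Matrix.det_zero_of_column_eq hne ?_
    intro k
    have e : q z i = q z j := by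
      have hh : ∀ i : Fin N, (X - C (z i)) * q z i = ∏ l, (X - C (z l)) := by
        intro i
        unfold q
        exact Finset.mul_prod_erase _ (fun l => (X - C (z l))) (Finset.mem_univ i)
      have h2 : (X - C (z i)) * q z i = (X - C (z i)) * q z j := by
        rw [hh i]
        conv_rhs => rw [hij]
        rw [hh j]
      exact mul_left_cancel₀ (X_sub_C_ne_zero _) h2
    simp [e]
  · have h1 := congrArg Matrix.det (vand_mul z)
    rw [Matrix.det_mul, Matrix.det_diagonal] at h1
    have h2 := congrArg norm h1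
    rw [norm_mul, norm_prod] at h2
    simp only [norm_neg, norm_prod] at h2
    rw [norm_prod_erase z, sq] at h2
    exact mul_left_cancel₀ (norm_ne_zero_iff.2 h) h2

theorem t_jac : S_JAC := by
  intro N z
  refine ⟨(LinearMap.toContinuousLinearMap
        (Matrix.toLin' (Matrix.of fun k i : Fin N => -(q z i).coeff k))).restrictScalars ℝ,
    (hasFDeriv_Phi z).restrictScalars ℝ, ?_⟩
  have h1 : ((LinearMap.toContinuousLinearMap
        (Matrix.toLin' (Matrix.of fun k i : Fin N => -(q z i).coeff k))).restrictScalars ℝ).det =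
      LinearMap.det ((Matrix.toLin'
        (Matrix.of fun k i : Fin N => -(q z i).coeff k)).restrictScalars ℝ) := rfl
  rw [h1, LinearMap.det_restrictScalars, LinearMap.det_toLin', Algebra.norm_complex_apply,
    Complex.normSq_eq_norm_sq, abs_of_nonneg (by positivity), norm_det]
  rfl

end Pool.Agent.W293.CV
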