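import Pool.Agent.W751.CV.Stm

set_option autoImplicit false

open Polynomial Filter Topology MeasureTheory

namespace Pool.Agent.W293.CV

open Pool.Agent.W751.CD Pool.Agent.W751.CV

/-- radial moments of the disc -/
theorem moment (ρ : ℝ) (hρ : 0 < ρ) (k : ℕ) :
    ∫ x in Metric.closedBall (0 : ℂ) ρ, (‖x‖ : ℝ) ^ (2 * k) = hk ρ k := by
  rw [← integral_indicator Metric.isClosed_closedBall.measurableSet]
  have h1 : ∀ x : ℂ, (Metric.closedBall (0 : ℂ) ρ).indicator (fun x : ℂ => (‖x‖ : ℝ) ^ (2 * k)) x =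
      (fun y : ℝ => (Set.Iic ρ).indicator (fun y => y ^ (2 * k)) y) ‖x‖ := by
    intro x
    by_cases hx : ‖x‖ ≤ ρ
    · rw [Set.indicator_of_mem (by simpa using hx)]
      show _ = (Set.Iic ρ).indicator (fun y => y ^ (2 * k)) ‖x‖
      rw [Set.indicator_of_mem (by exact hx)]
    · rw [Set.indicator_of_notMem (by simpa using hx)]
      show _ = (Set.Iic ρ).indicator (fun y => y ^ (2 * k)) ‖x‖
      rw [Set.indicator_of_notMem (by exact hx)]
  simp_rw [h1]
  rw [integral_fun_norm_addHaar]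
  rw [Complex.finrank_real_complex]
  have h2 : ∫ y in Set.Ioi (0 : ℝ), y ^ (2 - 1) • (Set.Iic ρ).indicator (fun y => y ^ (2 * k)) y =
      ∫ y in (0 : ℝ)..ρ, y ^ (2 * k + 1) := by
    rw [intervalIntegral.integral_of_le hρ.le]
    have e : ∀ y : ℝ, y ^ (2 - 1) • (Set.Iic ρ).indicator (fun y => y ^ (2 * k)) y =
        (Set.Iic ρ).indicator (fun y => y ^ (2 * k + 1)) y := by
      intro y
      by_cases hy : y ≤ ρ
      · rw [Set.indicator_of_mem (by exact hy), Set.indicator_of_mem (by exact hy)]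
        simp
        ring
      · rw [Set.indicator_of_notMem (by exact hy), Set.indicator_of_notMem (by exact hy)]
        simp
    simp_rw [e]
    rw [setIntegral_indicator measurableSet_Iic]
    rfl
  rw [h2, integral_pow]
  have hv : (volume : Measure ℂ).real (Metric.ball 0 1) = Real.pi := by
    rw [Measure.real, Complex.volume_ball]
    simp
  rw [hv]
  unfold hk
  have : (0 : ℝ) < (k : ℝ) + 1 := by positivity
  simp
  field_simp
  ring

/-- orthogonality of the monomials on the disc -/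
theorem orth (ρ : ℝ) (j k : ℕ) (hjk : j ≠ k) :
    ∫ x in Metric.closedBall (0 : ℂ) ρ, (starRingEnd ℂ) (x ^ j) * x ^ k = 0 := by
  have hne : ((k : ℝ) - j) ≠ 0 := by
    intro h
    apply hjk
    have : (k : ℝ) = j := by linarith
    exact_mod_cast this.symm
  set u : Circle := Circle.exp (Real.pi / ((k : ℝ) - j)) with hu
  have huc : (u : ℂ) = Complex.exp ((Real.pi / ((k : ℝ) - j) : ℝ) * Complex.I) := by
    rw [hu, Circle.coe_exp]
  have hrot : (starRingEnd ℂ) ((u : ℂ) ^ j) * (u : ℂ) ^ k = -1 := by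
    rw [map_pow, huc, ← Complex.exp_conj, ← Complex.exp_nat_mul, ← Complex.exp_nat_mul,
      ← Complex.exp_add]
    rw [← Complex.exp_pi_mul_I]
    congr 1
    have hne' : ((k : ℂ) - j) ≠ 0 := by exact_mod_cast hne
    rw [map_mul, Complex.conj_ofReal, Complex.conj_I]
    push_cast
    field_simp
    ring
  have hmp := (rotation u).measurePreserving
  have hemb : MeasurableEmbedding (rotation u) :=
    (rotation u).toHomeomorph.measurableEmbedding
  have h := hmp.setIntegral_preimage_emb hemb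
    (fun x : ℂ => (starRingEnd ℂ) (x ^ j) * x ^ k) (Metric.closedBall (0 : ℂ) ρ)
  have hpre : (rotation u) ⁻¹' Metric.closedBall (0 : ℂ) ρ = Metric.closedBall (0 : ℂ) ρ := by
    ext x
    rw [Set.mem_preimage, mem_closedBall_zero_iff, mem_closedBall_zero_iff,
      LinearIsometryEquiv.norm_map]
  rw [hpre] at h
  have h2 : ∀ x : ℂ, (starRingEnd ℂ) ((rotation u x) ^ j) * (rotation u x) ^ k =
      -1 * ((starRingEnd ℂ) (x ^ j) * x ^ k) := by
    intro x
    rw [rotation_apply, mul_pow, mul_pow, map_mul, ← hrot]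
    ring
  simp only [h2] at h
  rw [integral_const_mul] at h
  have h3 : (2 : ℂ) * ∫ x in Metric.closedBall (0 : ℂ) ρ, (starRingEnd ℂ) (x ^ j) * x ^ k = 0 := by
    linear_combination -h
  simpa using h3

theorem diag (ρ : ℝ) (hρ : 0 < ρ) (k : ℕ) :
    ∫ x in Metric.closedBall (0 : ℂ) ρ, (starRingEnd ℂ) (x ^ k) * x ^ k = (hk ρ k : ℂ) := by
  rw [← moment ρ hρ k, ← integral_complex_ofReal]
  refine integral_congr_ae (Eventually.of_forall fun x => ?_)
  show (starRingEnd ℂ) (x ^ k) * x ^ k = (((‖x‖ : ℝ) ^ (2 * k) : ℝ) : ℂ)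
  rw [mul_comm, Complex.mul_conj, Complex.normSq_eq_norm_sq, norm_pow, ← pow_mul, mul_comm k 2]

theorem parseval (ρ : ℝ) (hρ : 0 < ρ) (N : ℕ) (F : ℂ[X]) (hF : F.natDegree ≤ N) :
    ∫ x in Metric.closedBall (0 : ℂ) ρ, ‖F.eval x‖ ^ 2 =
      ∑ k ∈ Finset.range (N + 1), ‖F.coeff k‖ ^ 2 * hk ρ k := by
  have hD : IsCompact (Metric.closedBall (0 : ℂ) ρ) := isCompact_closedBall _ _
  have hint : ∀ j k : ℕ, IntegrableOn (fun x : ℂ => (starRingEnd ℂ) (F.coeff j) * F.coeff k *
      ((starRingEnd ℂ) (x ^ j) * x ^ k)) (Metric.closedBall (0 : ℂ) ρ) := by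
    intro j k
    refine ContinuousOn.integrableOn_compact hD ?_
    have : Continuous (fun x : ℂ => (starRingEnd ℂ) (F.coeff j) * F.coeff k *
      ((starRingEnd ℂ) (x ^ j) * x ^ k)) :=
      continuous_const.mul ((Complex.continuous_conj.comp (continuous_pow j)).mul
        (continuous_pow k))
    exact this.continuousOn
  have h1 : ∀ x : ℂ, ((‖F.eval x‖ ^ 2 : ℝ) : ℂ) =
      ∑ j ∈ Finset.range (N + 1), ∑ k ∈ Finset.range (N + 1),
        (starRingEnd ℂ) (F.coeff j) * F.coeff k * ((starRingEnd ℂ) (x ^ j) * x ^ k) := by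
    intro x
    rw [← Complex.normSq_eq_norm_sq, ← Complex.mul_conj, mul_comm,
      eval_eq_sum_range' (Nat.lt_succ_of_le hF), map_sum, Finset.sum_mul_sum]
    refine Finset.sum_congr rfl fun j _ => Finset.sum_congr rfl fun k _ => ?_
    rw [map_mul]
    ring
  have h2 : ((∫ x in Metric.closedBall (0 : ℂ) ρ, ‖F.eval x‖ ^ 2 : ℝ) : ℂ) =
      ((∑ k ∈ Finset.range (N + 1), ‖F.coeff k‖ ^ 2 * hk ρ k : ℝ) : ℂ) := by
    rw [← integral_complex_ofReal]
    simp_rw [h1]
    rw [integral_finsetSum _ (fun j _ => integrable_finsetSum _ (fun k _ => hint j k))]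
    push_cast
    refine Finset.sum_congr rfl fun j hj => ?_
    rw [integral_finsetSum _ (fun k _ => hint j k)]
    rw [Finset.sum_eq_single j]
    · rw [integral_const_mul, diag ρ hρ j, mul_comm ((starRingEnd ℂ) (F.coeff j)),
        Complex.mul_conj, Complex.normSq_eq_norm_sq]
      push_cast
      ring
    · intro k _ hkj
      rw [integral_const_mul, orth ρ j k (Ne.symm hkj), mul_zero]
    · intro h
      exact absurd hj h
  exact_mod_cast h2

theorem hk_pos (ρ : ℝ) (hρ : 0 < ρ) (k : ℕ) : 0 < hk ρ k := by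
  unfold hk
  have := Real.pi_pos
  positivity

theorem t_sup : S_SUP := by
  intro ρ r N F hρ hr hF w hw
  have hpi := Real.pi_pos
  have hr0 : 0 < r := lt_of_lt_of_le hρ hr
  have hD : IsCompact (Metric.closedBall (0 : ℂ) ρ) := isCompact_closedBall _ _
  have hcont : Continuous (fun x : ℂ => ‖F.eval x‖ ^ 2) := by
    have := F.continuous
    fun_prop
  have hint : IntegrableOn (fun x : ℂ => ‖F.eval x‖ ^ 2) (Metric.closedBall (0 : ℂ) ρ) :=
    hcont.continuousOn.integrableOn_compact hD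
  have h1 : ∫⁻ x, ENNReal.ofReal (‖F.eval x‖ ^ 2) ∂(mD ρ) =
      ENNReal.ofReal (∫ x in Metric.closedBall (0 : ℂ) ρ, ‖F.eval x‖ ^ 2) := by
    rw [ofReal_integral_eq_lintegral_ofReal hint
      (Eventually.of_forall fun x => by positivity)]
    rfl
  rw [h1, ← ENNReal.ofReal_mul (by positivity)]
  refine ENNReal.ofReal_le_ofReal ?_
  rw [parseval ρ hρ N F hF]
  -- pointwise bound
  have h2 : ‖F.eval w‖ ≤ ∑ k ∈ Finset.range (N + 1),
      (‖F.coeff k‖ * Real.sqrt (hk ρ k)) * (r ^ k / Real.sqrt (hk ρ k)) := by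
    rw [eval_eq_sum_range' (Nat.lt_succ_of_le hF)]
    refine (norm_sum_le _ _).trans (Finset.sum_le_sum fun k _ => ?_)
    have hs : 0 < Real.sqrt (hk ρ k) := Real.sqrt_pos.2 (hk_pos ρ hρ k)
    have e : (‖F.coeff k‖ * Real.sqrt (hk ρ k)) * (r ^ k / Real.sqrt (hk ρ k)) =
        ‖F.coeff k‖ * r ^ k := by
      field_simp
    rw [e, norm_mul, norm_pow]
    exact mul_le_mul_of_nonneg_left (pow_le_pow_left₀ (norm_nonneg w) hw k) (norm_nonneg _)
  have h3 : ‖F.eval w‖ ^ 2 ≤ (∑ k ∈ Finset.range (N + 1),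
      (‖F.coeff k‖ * Real.sqrt (hk ρ k)) ^ 2) *
      ∑ k ∈ Finset.range (N + 1), (r ^ k / Real.sqrt (hk ρ k)) ^ 2 :=
    (pow_le_pow_left₀ (norm_nonneg _) h2 2).trans (Finset.sum_mul_sq_le_sq_mul_sq _ _ _)
  have h4 : ∑ k ∈ Finset.range (N + 1), (‖F.coeff k‖ * Real.sqrt (hk ρ k)) ^ 2 =
      ∑ k ∈ Finset.range (N + 1), ‖F.coeff k‖ ^ 2 * hk ρ k := by
    refine Finset.sum_congr rfl fun k _ => ?_
    rw [mul_pow, Real.sq_sqrt (hk_pos ρ hρ k).le]
  have h5 : ∑ k ∈ Finset.range (N + 1), (r ^ k / Real.sqrt (hk ρ k)) ^ 2 ≤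
      ((N : ℝ) + 1) ^ 2 * (r / ρ) ^ (2 * N) / (Real.pi * ρ ^ 2) := by
    have h6 : ∀ k ∈ Finset.range (N + 1), (r ^ k / Real.sqrt (hk ρ k)) ^ 2 ≤
        ((N : ℝ) + 1) * (r / ρ) ^ (2 * N) / (Real.pi * ρ ^ 2) := by
      intro k hkN
      rw [Finset.mem_range] at hkN
      rw [div_pow, Real.sq_sqrt (hk_pos ρ hρ k).le]
      have e : (r ^ k) ^ 2 / hk ρ k = ((k : ℝ) + 1) * (r / ρ) ^ (2 * k) / (Real.pi * ρ ^ 2) := by
        unfold hk
        rw [div_pow]
        have : ρ ^ (2 * k + 2) = ρ ^ (2 * k) * ρ ^ 2 := by ring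
        rw [this]
        field_simp
        ring
      rw [e]
      have hk1 : (k : ℝ) + 1 ≤ N + 1 := by
        have : (k : ℝ) ≤ N := by exact_mod_cast Nat.lt_succ_iff.1 hkN
        linarith
      have hk2 : (r / ρ) ^ (2 * k) ≤ (r / ρ) ^ (2 * N) :=
        pow_le_pow_right₀ (by rw [le_div_iff₀ hρ]; linarith) (by omega)
      have hk3 : 0 ≤ (r / ρ) ^ (2 * k) := by positivity
      refine div_le_div_of_nonneg_right ?_ (by positivity)
      exact mul_le_mul hk1 hk2 hk3 (by positivity)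
    refine (Finset.sum_le_sum h6).trans ?_
    rw [Finset.sum_const, Finset.card_range, nsmul_eq_mul]
    push_cast
    apply le_of_eq
    ring
  rw [h4] at h3
  refine h3.trans ?_
  rw [mul_comm]
  refine mul_le_mul_of_nonneg_right h5 (Finset.sum_nonneg fun k _ => ?_)
  have := (hk_pos ρ hρ k).le
  positivity

end Pool.Agent.W293.CV
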